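import Pool.Agent.H14SI.Main
import Pool.Agent.H14SI.Low

/-!
Problem MP_0bba66_co (semiintersecting families): the formula for `f (k, N)`, `N ≤ k ^ 2`, is false:
`f (3 m, 10 m) = 9` for every `m ≥ 1`, whereas the formula gives `10`. The smallest of these
counterexamples with `N ≤ k ^ 2` is `k = 6`, `N = 20`.
-/

set_option autoImplicit false

namespace Pool.Agent.Results.MP_0bba66_co.TenthMember

open Finset

/-- `F` is a semiintersecting family with parameters `(k, N)`. The disjoint sets `A` and `B` are the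
two summands of `Fin N ⊕ Fin N`; the halves of a subset `S` are `S.toLeft` and `S.toRight`. -/
def Semiintersecting (k N : ℕ) (F : Finset (Finset (Fin N ⊕ Fin N))) : Prop :=
  (∀ S ∈ F, S.toLeft.card = k ∧ S.toRight.card = k) ∧
    ∀ S ∈ F, ∀ T ∈ F, S ≠ T →
      ((S.toLeft ∩ T.toLeft).Nonempty ∧ ¬ (S.toRight ∩ T.toRight).Nonempty) ∨
        (¬ (S.toLeft ∩ T.toLeft).Nonempty ∧ (S.toRight ∩ T.toRight).Nonempty)

open Classical in
/-- The largest cardinality of a semiintersecting family with parameters `(k, N)`. -/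
noncomputable def f (k N : ℕ) : ℕ :=
  ((univ : Finset (Finset (Finset (Fin N ⊕ Fin N)))).filter fun F => Semiintersecting k N F).sup
    Finset.card

theorem upper (m : ℕ) (hm : 0 < m) (F : Finset (Finset (Fin (10 * m) ⊕ Fin (10 * m))))
    (hF : Semiintersecting (3 * m) (10 * m) F) : F.card ≤ 9 := by
  by_contra hcon
  obtain ⟨s, hs, h10⟩ := exists_subset_card_eq (s := F) (n := 10) (by omega)
  have hlen : s.toList.length = 10 := by rw [length_toList, h10]
  have hmem : ∀ i < 10, s.toList.getD i ∅ ∈ F := by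
    intro i hi
    have hi' : i < s.toList.length := by omega
    rw [List.getD_eq_getElem _ _ hi']
    exact hs (mem_toList.1 (List.getElem_mem hi'))
  have hne : ∀ i < 10, ∀ j < 10, i ≠ j → s.toList.getD i ∅ ≠ s.toList.getD j ∅ := by
    intro i hi j hj hij
    have hi' : i < s.toList.length := by omega
    have hj' : j < s.toList.length := by omega
    rw [List.getD_eq_getElem _ _ hi', List.getD_eq_getElem _ _ hj']
    intro e
    exact hij ((List.Nodup.getElem_inj_iff (nodup_toList s)).1 e)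
  refine H14SI.not_good (m := m) (X := fun i => (s.toList.getD i ∅).toLeft)
    (Y := fun i => (s.toList.getD i ∅).toRight) ⟨hm, Fintype.card_fin _, Fintype.card_fin _,
      fun i hi => (hF.1 _ (hmem i hi)).1, fun i hi => (hF.1 _ (hmem i hi)).2, ?_⟩
  intro i hi j hj hij
  have h := hF.2 _ (hmem i hi) _ (hmem j hj) (hne i hi j hj hij)
  rw [disjoint_iff_inter_eq_empty, disjoint_iff_inter_eq_empty, ← not_nonempty_iff_eq_empty,
    ← not_nonempty_iff_eq_empty, not_not]
  rcases h with ⟨h1, h2⟩ | ⟨h1, h2⟩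
  · exact ⟨fun _ => h2, fun _ => h1⟩
  · exact ⟨fun h3 => absurd h3 h1, fun h3 => absurd h2 h3⟩

theorem result :
    (∀ m : ℕ, 1 ≤ m → f (3 * m) (10 * m) = 9) ∧
      (∀ m : ℕ, 2 ≤ m → 10 * m ≤ (3 * m) ^ 2 ∧ (10 * m * (10 * m / (3 * m))) / (3 * m) = 10) ∧
      ¬ ∀ k N : ℕ, 0 < k → 0 < N → N ≤ k ^ 2 → f k N = (N * (N / k)) / k := by
  classical
  have h1 : ∀ m : ℕ, 1 ≤ m → f (3 * m) (10 * m) = 9 := by
    intro m hm
    apply le_antisymm
    · unfold f
      apply Finset.sup_le
      intro F hF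
      rw [mem_filter] at hF
      exact upper m hm F hF.2
    · obtain ⟨F, hF9, hF1, hF2⟩ := H14SI.exists_nine m hm
      unfold f
      rw [← hF9]
      apply Finset.le_sup (f := Finset.card)
      rw [mem_filter]
      exact ⟨mem_univ F, hF1, hF2⟩
  have h2 : ∀ m : ℕ, 2 ≤ m →
      10 * m ≤ (3 * m) ^ 2 ∧ (10 * m * (10 * m / (3 * m))) / (3 * m) = 10 := by
    intro m hm
    constructor
    · nlinarith
    · have e1 : 10 * m / (3 * m) = 3 := by
        rw [Nat.mul_div_mul_right _ _ (by omega)]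
      rw [e1, show 10 * m * 3 = 10 * (3 * m) from by ring]
      exact Nat.mul_div_cancel _ (by omega)
  refine ⟨h1, h2, fun h => ?_⟩
  have h3 := h (3 * 2) (10 * 2) (by norm_num) (by norm_num) (by norm_num)
  rw [h1 2 (by norm_num), (h2 2 le_rfl).2] at h3
  exact absurd h3 (by norm_num)

end Pool.Agent.Results.MP_0bba66_co.TenthMember
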